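import Mathlib

/-!
# Every 2-sunflowerable infinite structure is sunflowerable

Answer to Q1 of MP_615e1a_lc: yes.

Idea. A 2-sunflowerable structure `M` is *canonical*: every function `g` on `M` is constant or
injective on some copy of `M` inside `M` (look at the pairs `{g m, m}`). Conversely, let the elements
of a copy of `M` be `n`-element subsets of a well-ordered set and list each of them increasingly as
`a 0 m < a 1 m < ...`. Pass to a copy on which each `a i` is constant or injective. For `i < j` with
`a j` injective, the relation `a j m' = a i m` is well-founded and each `m` has at most one `m'`, so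
there is a colouring of `M` with two colours that separates all such pairs. On a copy on which all
these finitely many colourings are constant, the injective coordinates do not collide, and the set of
the constant coordinates is the kernel of a sunflower.
-/

set_option autoImplicit false

universe u v w

namespace Pool.Agent.Results.MP_615e1a_lc.TwoSunflowerable

open FirstOrder

/-- A set `S` of finite sets is a sunflower if there is a set `r` with `p ∩ q = r` for all distinct
`p, q ∈ S`. -/
def IsSunflower {X : Type w} (S : Set (Finset X)) : Prop :=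
  ∃ r : Set X, ∀ p ∈ S, ∀ q ∈ S, p ≠ q → (p : Set X) ∩ (q : Set X) = r

/-- `M` is `n`-sunflowerable: for every `L`-structure on a set `Y` of `n`-element sets that is
isomorphic to `M` there is a substructure `Z` of `Y` that is isomorphic to `Y` and whose underlying
set is a sunflower. -/
def NSunflowerable (L : FirstOrder.Language.{u, v}) (M : Type w) [L.Structure M] (n : ℕ) : Prop :=
  ∀ (X : Type w) (Y : Set (Finset X)) [L.Structure Y], (∀ p ∈ Y, p.card = n) →
    Nonempty (M ≃[L] Y) →
      ∃ Z : L.Substructure Y, Nonempty (Z ≃[L] Y) ∧ IsSunflower (Subtype.val '' (Z : Set Y))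

/-- `M` is sunflowerable if it is `n`-sunflowerable for every natural number `n`. -/
def Sunflowerable (L : FirstOrder.Language.{u, v}) (M : Type w) [L.Structure M] : Prop :=
  ∀ n : ℕ, NSunflowerable L M n

section

variable {L : FirstOrder.Language.{u, v}} {M : Type w} [L.Structure M]

/-- constant or injective -/
def CI {A : Type w} {X : Type w} (f : A → X) : Prop :=
  (∀ a b, f a = f b) ∨ Function.Injective f

/-- every function on `M` becomes constant or injective along some embedding of `M` in itself -/
def Canonical (L : FirstOrder.Language.{u, v}) (M : Type w) [L.Structure M] : Prop :=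
  ∀ (X : Type w) (g : M → X), ∃ φ : M ↪[L] M, CI (g ∘ φ)

lemma canonical_of_two [Infinite M] (h : NSunflowerable L M 2) : Canonical L M := by
  classical
  intro X g
  let f : M → Finset (X ⊕ M) := fun m => {Sum.inl (g m), Sum.inr m}
  have hf : Function.Injective f := by
    intro a b hab
    have : Sum.inr a ∈ f b := by rw [← hab]; simp [f]
    simpa [f] using this
  let e0 : M ≃ Set.range f := Equiv.ofInjective f hf
  let _ : L.Structure (Set.range f) := Equiv.inducedStructure e0
  let e : M ≃[L] Set.range f := Equiv.inducedStructureEquiv e0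
  have he : ∀ m, ((e m : Set.range f) : Finset (X ⊕ M)) = f m := by
    intro m
    have : e m = e0 m := by
      simp only [e, Equiv.toFun_inducedStructureEquiv]
    rw [this]; rfl
  obtain ⟨Z, ⟨i⟩, r, hr⟩ := h (X ⊕ M) (Set.range f) (by
    rintro p ⟨m, rfl⟩
    exact Finset.card_pair (by simp)) ⟨e⟩
  let φ : M ↪[L] M := e.symm.toEmbedding.comp (Z.subtype.comp (i.symm.toEmbedding.comp e.toEmbedding))
  refine ⟨φ, ?_⟩
  have hφ : ∀ m, f (φ m) ∈ Subtype.val '' (Z : Set (Set.range f)) := by
    intro m
    refine ⟨e (φ m), ?_, he _⟩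
    have : e (φ m) = Z.subtype (i.symm (e m)) := by
      simp [φ]
    rw [this]
    exact (i.symm (e m)).2
  have hinj : Function.Injective φ := φ.injective
  have hint : ∀ a b, a ≠ b → (f (φ a) : Set (X ⊕ M)) ∩ f (φ b) = r := by
    intro a b hab
    exact hr _ (hφ a) _ (hφ b) fun h => hab (hinj (hf h))
  by_cases hne : ∃ a b, a ≠ b ∧ g (φ a) = g (φ b)
  · left
    obtain ⟨a, b, hab, hg⟩ := hne
    have hmem : Sum.inl (g (φ a)) ∈ r := by
      rw [← hint a b hab]
      constructor
      · simp [f]
      · simp [f, hg]
    have key : ∀ c, g (φ c) = g (φ a) := by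
      intro c
      obtain ⟨d, hd⟩ := exists_ne c
      rw [← hint c d hd.symm] at hmem
      have h1 : Sum.inl (g (φ a)) ∈ f (φ c) := hmem.1
      simp only [f, Finset.mem_insert, Sum.inl.injEq, Finset.mem_singleton, reduceCtorEq,
        or_false] at h1
      exact h1.symm
    intro c d
    simp only [Function.comp_apply]
    rw [key c, key d]
  · right
    intro a b hab
    by_contra hne'
    exact hne ⟨a, b, hne', hab⟩

lemma canonical_finite [Infinite M] (h : Canonical L M) {X : Type} [Finite X] (g : M → X) :
    ∃ φ : M ↪[L] M, ∀ a b, g (φ a) = g (φ b) := by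
  obtain ⟨φ, hφ | hφ⟩ := h (ULift.{w} X) (fun m => ULift.up (g m))
  · exact ⟨φ, fun a b => by simpa using hφ a b⟩
  · exact absurd (Finite.of_injective _ hφ) (not_finite_iff_infinite.2 inferInstance)

lemma CI.comp {A B X : Type w} {f : A → X} (hf : CI f) {g : B → A} (hg : Function.Injective g) :
    CI (f ∘ g) := by
  rcases hf with h | h
  · exact Or.inl fun a b => h _ _
  · exact Or.inr (h.comp hg)

lemma canonical_family (h : Canonical L M) {X : Type w} {ι : Type} (s : Finset ι)
    (a : ι → M → X) : ∃ φ : M ↪[L] M, ∀ i ∈ s, CI (a i ∘ φ) := by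
  classical
  induction s using Finset.induction_on with
  | empty => exact ⟨Language.Embedding.refl L M, by simp⟩
  | insert i s _ ih =>
    obtain ⟨φ, hφ⟩ := ih
    obtain ⟨ψ, hψ⟩ := h X (a i ∘ φ)
    refine ⟨φ.comp ψ, fun j hj => ?_⟩
    rcases Finset.mem_insert.1 hj with rfl | hj
    · exact hψ
    · exact (hφ j hj).comp ψ.injective

/-- the colouring lemma -/
lemma exists_colouring {A : Type w} (r : A → A → Prop) (hwf : WellFounded r)
    (huniq : ∀ a b c, r a c → r b c → a = b) : ∃ c : A → Bool, ∀ a b, r a b → c a ≠ c b := by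
  classical
  let F : (m : A) → ((m0 : A) → r m0 m → Bool) → Bool :=
    fun m ih => if h : ∃ m0, r m0 m then !(ih h.choose h.choose_spec) else false
  refine ⟨hwf.fix F, ?_⟩
  intro a b hab
  have hex : ∃ m0, r m0 b := ⟨a, hab⟩
  have hch : hex.choose = a := huniq _ _ _ hex.choose_spec hab
  have e1 : hwf.fix F b = !(hwf.fix F hex.choose) := by
    rw [hwf.fix_eq F b]
    simp only [F]
    rw [dif_pos hex]
  rw [e1, hch]
  simp

end

/-- **Theorem.** Every 2-sunflowerable infinite structure, in any first-order language, is
sunflowerable. -/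
theorem result (L : FirstOrder.Language.{u, v}) (M : Type w) [L.Structure M] [Infinite M]
    (h : NSunflowerable L M 2) : Sunflowerable L M := by
  classical
  have hcan := canonical_of_two h
  intro n X Y _ hY ⟨e⟩
  -- a well-order on `X`
  obtain ⟨lin, wf⟩ := exists_wellFoundedLT X
  -- the coordinates
  let a : Fin n → M → X := fun i m => (e m : Finset X).orderEmbOfFin (hY _ (e m).2) i
  have ha_lt : ∀ i j : Fin n, i < j → ∀ m, a i m < a j m := fun i j hij m =>
    ((e m : Finset X).orderEmbOfFin (hY _ (e m).2)).strictMono hij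
  have ha_ne : ∀ i j : Fin n, i ≠ j → ∀ m, a i m ≠ a j m := fun i j hij m hh =>
    hij (((e m : Finset X).orderEmbOfFin (hY _ (e m).2)).injective hh)
  have ha_mem : ∀ (x : X) m, x ∈ (e m : Finset X) ↔ ∃ i, a i m = x := by
    intro x m
    have := Finset.range_orderEmbOfFin (e m : Finset X) (hY _ (e m).2)
    rw [← Finset.mem_coe, ← this]
    exact Set.mem_range
  -- first pass: each coordinate is constant or injective
  obtain ⟨φ, hφ'⟩ := canonical_family hcan Finset.univ a
  have hφ : ∀ i : Fin n, CI (a i ∘ φ) := fun i => hφ' i (Finset.mem_univ i)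
  -- colourings
  have hcol : ∀ ij : Fin n × Fin n, ∃ c : M → Bool, ij.1 < ij.2 →
      Function.Injective (a ij.2 ∘ φ) →
      ∀ m m', a ij.2 (φ m') = a ij.1 (φ m) → c m' ≠ c m := by
    rintro ⟨i, j⟩
    by_cases hij : i < j ∧ Function.Injective (a j ∘ φ)
    · obtain ⟨c, hc⟩ := exists_colouring (A := M) (fun m' m => a j (φ m') = a i (φ m))
        (by
          apply Subrelation.wf (r := InvImage (· < ·) fun m => a i (φ m)) _
            (InvImage.wf _ wellFounded_lt)
          intro m' m hm
          show a i (φ m') < a i (φ m)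
          rw [← hm]
          exact ha_lt i j hij.1 _)
        (by
          intro m1 m2 m3 h1 h2
          exact hij.2 (h1.trans h2.symm))
      exact ⟨c, fun _ _ m m' hm => hc m' m hm⟩
    · exact ⟨fun _ => false, fun h1 h2 => absurd ⟨h1, h2⟩ hij⟩
  choose c hc using hcol
  -- second pass: all colours are constant
  obtain ⟨ψ, hψ⟩ := canonical_finite hcan (X := Fin n × Fin n → Bool) fun m ij => c ij m
  let χ : M ↪[L] M := φ.comp ψ
  have hCI : ∀ i, CI (a i ∘ χ) := fun i => (hφ i).comp ψ.injective
  have hdis : ∀ i j : Fin n, i < j → Function.Injective (a j ∘ φ) →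
      ∀ m m', a j (χ m') ≠ a i (χ m) := by
    intro i j hij hj m m' hm
    exact hc (i, j) hij hj (ψ m) (ψ m') hm (congrFun (hψ m' m) (i, j))
  -- the sunflower
  let θ : Y ↪[L] Y := e.toEmbedding.comp (χ.comp e.symm.toEmbedding)
  refine ⟨θ.toHom.range, ⟨θ.equivRange.symm⟩, {x | ∀ m, x ∈ (e (χ m) : Finset X)}, ?_⟩
  have hZ : ∀ p ∈ Subtype.val '' ((θ.toHom.range : L.Substructure Y) : Set Y),
      ∃ m, p = (e (χ m) : Finset X) := by
    rintro _ ⟨y, hy, rfl⟩
    obtain ⟨z, rfl⟩ := hy
    exact ⟨e.symm z, rfl⟩
  intro p hp q hq hpq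
  obtain ⟨m, rfl⟩ := hZ p hp
  obtain ⟨m', rfl⟩ := hZ q hq
  have hmm : m ≠ m' := by rintro rfl; exact hpq rfl
  apply Set.Subset.antisymm
  · rintro x ⟨hx1, hx2⟩
    obtain ⟨i, hi⟩ := (ha_mem x _).1 hx1
    obtain ⟨j, hj⟩ := (ha_mem x _).1 hx2
    by_cases hij : i = j
    · subst hij
      rcases hCI i with hcst | hinj
      · intro k
        rw [ha_mem]
        exact ⟨i, (hcst k m).trans hi⟩
      · exact absurd (hinj (hi.trans hj.symm)) hmm
    · exfalso
      rcases hφ i with hci | hii
      · have h1 : a i (χ m) = a i (χ m') := hci _ _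
        exact ha_ne i j hij (χ m') (h1.symm.trans (hi.trans hj.symm))
      · rcases hφ j with hcj | hjj
        · have h1 : a j (χ m') = a j (χ m) := hcj _ _
          exact ha_ne i j hij (χ m) (hi.trans (hj.symm.trans h1))
        · rcases lt_or_gt_of_ne hij with h1 | h1
          · exact hdis i j h1 hjj m m' (hj.trans hi.symm)
          · exact hdis j i h1 hii m' m (hi.trans hj.symm)
  · intro x hx
    exact ⟨hx m, hx m'⟩

end Pool.Agent.Results.MP_615e1a_lc.TwoSunflowerable
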